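import Mathlib

/-!
The two-type annihilating random walks on the lattice: every particle carries a colour and its own
continuous-time simple random walk; finite systems are run jump by jump; the infinite system is the
limit of the systems started from the particles of growing cubes.
-/

set_option autoImplicit false
open MeasureTheory ProbabilityTheory Filter
open scoped Classical

namespace Pool.Agent.MP_0e9fac_pr

/-- Sites of the lattice; a particle is named by its starting site. -/
abbrev Site (d : ℕ) : Type := Fin d → ℤ

/-- The walk of one particle: the `i`-th holding time and the direction of the `i`-th jump. -/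
abbrev Clock (d : ℕ) : Type := ℕ → ℝ × (Fin d × Bool)

/-- All the randomness: for every particle a colour (`true` is red) and a walk. -/
abbrev Conf (d : ℕ) : Type := Site d → Bool × Clock d

variable {d : ℕ}

/-- The unit vector of a direction. -/
def step (e : Fin d × Bool) : Site d := Pi.single e.1 (if e.2 then 1 else -1)

/-- The time of the `n`-th jump. -/
def jumpTime (w : Clock d) (n : ℕ) : ℝ := ∑ i ∈ Finset.range n, (w i).1

/-- The number of jumps up to time `t`. -/
noncomputable def jumpCount (w : Clock d) (t : ℝ) : ℕ := sSup {n | jumpTime w n ≤ t}

/-- The displacement of a walk at time `t`. -/
noncomputable def disp (w : Clock d) (t : ℝ) : Site d :=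
  ∑ i ∈ Finset.range (jumpCount w t), step (w i).2

/-- The position at time `t` of the walk of the particle started at `z`. -/
noncomputable def pos (ω : Conf d) (t : ℝ) (z : Site d) : Site d := z + disp (ω z).2 t

/-- Annihilation.  Particles `A` with colours `c` sit at the positions `x`.  At each site the two
colours cancel one for one, those with the smallest priority `pr` first: `w` survives when the
number of particles of the other colour at its site is at most the number of particles of its own
colour at its site with a smaller priority. -/
noncomputable def resolve (pr : Site d → ℝ) (c : Site d → Bool) (x : Site d → Site d)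
    (A : Finset (Site d)) : Finset (Site d) :=
  A.filter fun w => (A.filter fun v => x v = x w ∧ c v ≠ c w).card ≤
    (A.filter fun v => x v = x w ∧ c v = c w ∧ pr v < pr w).card

/-- The times up to `t` at which the walk of some particle of `F` jumps. -/
noncomputable def times (ω : Conf d) (F : Finset (Site d)) (t : ℝ) : Finset ℝ :=
  F.biUnion fun z => (Finset.Icc 1 (jumpCount (ω z).2 t)).image (jumpTime (ω z).2)

/-- The particles alive at time `t` in the system started from the particles of the finite set
`F`: annihilation is applied at the successive jump times. -/
noncomputable def alive (pr : Site d → ℝ) (ω : Conf d) (F : Finset (Site d)) (t : ℝ) :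
    Finset (Site d) :=
  ((times ω F t).sort (· ≤ ·)).foldl (fun A s => resolve pr (fun z => (ω z).1) (pos ω s) A) F

/-- The cube of radius `n` around the origin. -/
noncomputable def cube (d n : ℕ) : Finset (Site d) :=
  Fintype.piFinset fun _ => Finset.Icc (-(n : ℤ)) n

/-- The number of particles of colour `κ` at site `x` at time `t` in the system started from the
particles of the cube of radius `n`. -/
noncomputable def count (pr : Site d → ℝ) (ω : Conf d) (n : ℕ) (κ : Bool) (t : ℝ) (x : Site d) :
    ℕ :=
  ((alive pr ω (cube d n) t).filter fun z => (ω z).1 = κ ∧ pos ω t z = x).card

/-- The infinite system exists: at every site and on every bounded time interval the numbers of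
red and of blue particles do not depend on the radius of the cube once it is large. -/
def Stabilises (pr : Site d → ℝ) (ω : Conf d) : Prop :=
  ∀ (x : Site d) (T : ℝ), ∃ m : ℕ, ∀ n ≥ m, ∀ t ∈ Set.Icc 0 T, ∀ κ : Bool,
    count pr ω n κ t x = count pr ω m κ t x

/-- In the infinite system the origin holds a particle of colour `κ` at arbitrarily large times. -/
def VisitsInfinitelyOften (pr : Site d → ℝ) (ω : Conf d) (κ : Bool) : Prop :=
  ∀ T : ℝ, ∃ t ≥ T, ∀ᶠ n in atTop, 0 < count pr ω n κ t 0

/-- The law of one walk: independent rate one exponential holding times and uniform directions. -/
noncomputable def clockLaw (d : ℕ) : Measure (Clock d) :=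
  Measure.infinitePi fun _ => (expMeasure 1).prod (uniformOn Set.univ)

/-- Independent particles, each red with probability `p`, with independent walks. -/
noncomputable def law (d : ℕ) (p : unitInterval) : Measure (Conf d) :=
  Measure.infinitePi fun _ => (bernoulliMeasure true false p).prod (clockLaw d)

end Pool.Agent.MP_0e9fac_pr
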