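import Pool.Agent.MP_0e9fac_pr.Defs

/-! Deterministic properties of one annihilation step. -/

set_option autoImplicit false
open Finset
open scoped Classical

namespace Pool.Agent.MP_0e9fac_pr

variable {d : ℕ}

/-- The sign of a colour. -/
noncomputable def sg (b : Bool) : ℝ := if b then 1 else -1

lemma sg_mul_self (b : Bool) : sg b * sg b = 1 := by cases b <;> simp [sg]

lemma abs_sg (b : Bool) : |sg b| = 1 := by cases b <;> simp [sg]

lemma sg_of_ne {a b : Bool} (h : a ≠ b) : sg a = - sg b := by
  cases a <;> cases b <;> simp_all [sg]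

/-- Signed sum of `g` over the positions of the particles of `A`. -/
noncomputable def SS (c : Site d → Bool) (x : Site d → Site d) (A : Finset (Site d))
    (g : Site d → ℝ) : ℝ := ∑ w ∈ A, sg (c w) * g (x w)

/-- Sum of `g` over the positions of the particles of `A` of colour `κ`. -/
noncomputable def UU (κ : Bool) (c : Site d → Bool) (x : Site d → Site d) (A : Finset (Site d))
    (g : Site d → ℝ) : ℝ := ∑ w ∈ A, if c w = κ then g (x w) else 0

/-- Every site is monochromatic. -/
def Mono (c : Site d → Bool) (x : Site d → Site d) (A : Finset (Site d)) : Prop :=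
  ∀ v ∈ A, ∀ w ∈ A, x v = x w → c v = c w

/-- `A` has more particles of colour `κ` and fewer of the other colour than `B`. -/
def Dom (κ : Bool) (c : Site d → Bool) (A B : Finset (Site d)) : Prop :=
  (∀ w ∈ B, c w = κ → w ∈ A) ∧ (∀ w ∈ A, c w ≠ κ → w ∈ B)

/-- An injective priority function. -/
class Prio (d : ℕ) where
  /-- The priority. -/
  pr : Site d → ℝ
  inj : Function.Injective pr

variable {c c' : Site d → Bool} {x x' : Site d → Site d} {A B : Finset (Site d)}
  {pr : Site d → ℝ} {P : Prio d}

lemma mem_resolve {w : Site d} : w ∈ resolve pr c x A ↔ w ∈ A ∧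
    (A.filter fun v => x v = x w ∧ c v ≠ c w).card ≤
      (A.filter fun v => x v = x w ∧ c v = c w ∧ pr v < pr w).card := by
  unfold resolve; rw [mem_filter]

lemma resolve_subset : resolve pr c x A ⊆ A := filter_subset _ _

lemma resolve_congr (hc : ∀ w ∈ A, c w = c' w) (hx : ∀ w ∈ A, x w = x' w) :
    resolve pr c x A = resolve pr c' x' A := by
  unfold resolve
  refine filter_congr fun w hw => ?_
  have h1 : (A.filter fun v => x v = x w ∧ c v ≠ c w) = A.filter fun v => x' v = x' w ∧ c' v ≠ c' w :=
    filter_congr fun v hv => by rw [hc v hv, hc w hw, hx v hv, hx w hw]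
  have h2 : (A.filter fun v => x v = x w ∧ c v = c w ∧ pr v < pr w) =
      A.filter fun v => x' v = x' w ∧ c' v = c' w ∧ pr v < pr w :=
    filter_congr fun v hv => by rw [hc v hv, hc w hw, hx v hv, hx w hw]
  rw [h1, h2]

lemma resolve_of_mono (h : Mono c x A) : resolve pr c x A = A := by
  unfold resolve
  refine filter_true_of_mem fun w hw => ?_
  have : (A.filter fun v => x v = x w ∧ c v ≠ c w) = ∅ :=
    filter_eq_empty_iff.2 fun v hv hh => hh.2 (h v hv w hw hh.1)
  rw [this]; simp

lemma Mono.subset (h : Mono c x A) (hB : B ⊆ A) : Mono c x B :=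
  fun v hv w hw => h v (hB hv) w (hB hw)

lemma Mono.congr (h : Mono c x A) (hx : ∀ w ∈ A, x w = x' w) : Mono c x' A :=
  fun v hv w hw hh => h v hv w hw (by rw [hx v hv, hx w hw, hh])

lemma rank_lt {w : Site d} (hw : w ∈ A) :
    (A.filter fun v => x v = x w ∧ c v = c w ∧ pr v < pr w).card <
      (A.filter fun v => x v = x w ∧ c v = c w).card := by
  apply card_lt_card
  rw [ssubset_iff_of_subset]
  · exact ⟨w, by simp [hw], fun h => lt_irrefl _ (mem_filter.1 h).2.2.2⟩
  · intro v hv
    rw [mem_filter] at hv ⊢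
    exact ⟨hv.1, hv.2.1, hv.2.2.1⟩

lemma mono_resolve : Mono c x (resolve pr c x A) := by
  intro v hv w hw hvw
  by_contra hne
  rw [mem_resolve] at hv hw
  have h1 := rank_lt (pr := pr) (x := x) (c := c) hv.1
  have h2 := rank_lt (pr := pr) (x := x) (c := c) hw.1
  have e1 : (A.filter fun u => x u = x v ∧ c u = c v) = A.filter fun u => x u = x w ∧ c u ≠ c w := by
    refine filter_congr fun u _ => ?_
    rw [hvw]
    revert hne
    cases c u <;> cases c v <;> cases c w <;> simp
  have e2 : (A.filter fun u => x u = x w ∧ c u = c w) = A.filter fun u => x u = x v ∧ c u ≠ c v := by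
    refine filter_congr fun u _ => ?_
    rw [hvw]
    revert hne
    cases c u <;> cases c v <;> cases c w <;> simp
  rw [e1] at h1
  rw [e2] at h2
  have := hv.2
  have := hw.2
  omega

lemma Dom.resolve {κ : Bool} (h : Dom κ c A B) : Dom κ c (resolve pr c x A) (resolve pr c x B) := by
  constructor
  · intro w hw hc
    rw [mem_resolve] at hw ⊢
    refine ⟨h.1 w hw.1 hc, ?_⟩
    refine le_trans (card_le_card ?_) (le_trans hw.2 (card_le_card ?_))
    · intro v hv
      rw [mem_filter] at hv ⊢
      exact ⟨h.2 v hv.1 (by rw [← hc]; exact hv.2.2), hv.2⟩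
    · intro v hv
      rw [mem_filter] at hv ⊢
      exact ⟨h.1 v hv.1 (by rw [← hc]; exact hv.2.2.1), hv.2⟩
  · intro w hw hc
    rw [mem_resolve] at hw ⊢
    refine ⟨h.2 w hw.1 hc, ?_⟩
    refine le_trans (card_le_card ?_) (le_trans hw.2 (card_le_card ?_))
    · intro v hv
      rw [mem_filter] at hv ⊢
      refine ⟨h.1 v hv.1 ?_, hv.2⟩
      have := hv.2.2
      revert this hc
      cases c v <;> cases c w <;> cases κ <;> simp
    · intro v hv
      rw [mem_filter] at hv ⊢
      exact ⟨h.2 v hv.1 (by rw [hv.2.2.1]; exact hc), hv.2⟩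

lemma exists_of_not_mem_resolve {w : Site d} (hw : w ∈ A) (h : w ∉ resolve pr c x A) :
    ∃ v ∈ A, x v = x w ∧ c v ≠ c w := by
  rw [mem_resolve] at h
  push Not at h
  have := h hw
  have hpos : 0 < (A.filter fun v => x v = x w ∧ c v ≠ c w).card := by omega
  obtain ⟨v, hv⟩ := card_pos.1 hpos
  rw [mem_filter] at hv
  exact ⟨v, hv.1, hv.2⟩

/-- In a finite linearly ordered set the number of elements of rank less than `k`. -/
lemma card_rank_lt {L : Type*} [LinearOrder L] (R : Finset L) (k : ℕ) :
    (R.filter fun w => (R.filter fun v => v < w).card < k).card = min R.card k := by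
  induction R using Finset.induction_on_max with
  | empty => simp
  | insert a s ha ih =>
    have has : a ∉ s := fun h => lt_irrefl _ (ha a h)
    rw [filter_insert, card_insert_of_notMem has]
    have e1 : ((insert a s).filter fun v => v < a) = s := by
      rw [filter_insert, if_neg (lt_irrefl a)]
      exact filter_true_of_mem ha
    have e2 : (s.filter fun w => ((insert a s).filter fun v => v < w).card < k) =
        s.filter fun w => (s.filter fun v => v < w).card < k := by
      refine filter_congr fun w hw => ?_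
      rw [filter_insert, if_neg (not_lt.2 (ha w hw).le)]
    rw [e1, e2]
    split_ifs with h
    · rw [card_insert_of_notMem (fun hh => has (mem_filter.1 hh).1), ih]; omega
    · rw [ih]; omega

lemma card_removed (y : Site d) (κ : Bool) :
    ((A \ resolve P.pr c x A).filter fun w => x w = y ∧ c w = κ).card =
      min (A.filter fun w => x w = y ∧ c w = κ).card (A.filter fun w => x w = y ∧ c w ≠ κ).card := by
  set R : Finset ℝ := (A.filter fun w => x w = y ∧ c w = κ).map ⟨P.pr, P.inj⟩ with hR
  have h := card_rank_lt R (A.filter fun w => x w = y ∧ c w ≠ κ).card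
  rw [hR, card_map] at h
  rw [← h, filter_map, card_map]
  congr 1
  ext w
  simp only [mem_filter, mem_sdiff, mem_resolve, Function.comp, Function.Embedding.coeFn_mk]
  constructor
  · rintro ⟨⟨hw, h1⟩, hy, hk⟩
    refine ⟨⟨hw, hy, hk⟩, ?_⟩
    rw [filter_map, card_map, filter_filter]
    have h2 := not_le.1 (fun hh => h1 ⟨hw, hh⟩)
    rw [hy, hk] at h2
    refine lt_of_eq_of_lt ?_ h2
    congr 1
    exact filter_congr fun v _ => and_assoc
  · rintro ⟨⟨hw, hy, hk⟩, h1⟩
    refine ⟨⟨hw, fun hh => ?_⟩, hy, hk⟩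
    rw [filter_map, card_map, filter_filter] at h1
    have h2 := hh.2
    rw [hy, hk] at h2
    refine absurd (lt_of_eq_of_lt ?_ h1) (not_lt.2 h2)
    congr 1
    exact filter_congr fun v _ => and_assoc.symm

lemma SS_resolve (g : Site d → ℝ) : SS c x (resolve P.pr c x A) g = SS c x A g := by
  unfold SS
  rw [← sum_sdiff (resolve_subset (pr := P.pr) (c := c) (x := x) (A := A))]
  suffices h : ∑ w ∈ A \ resolve P.pr c x A, sg (c w) * g (x w) = 0 by rw [h, zero_add]
  set D := A \ resolve P.pr c x A with hD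
  rw [← sum_fiberwise_of_maps_to (t := D.image x) (g := x) (fun w hw => mem_image_of_mem x hw)]
  refine sum_eq_zero fun y _ => ?_
  rw [← sum_filter_add_sum_filter_not _ (fun w => c w = true), filter_filter, filter_filter]
  have e1 : ∑ w ∈ D.filter (fun w => x w = y ∧ c w = true), sg (c w) * g (x w) =
      (D.filter (fun w => x w = y ∧ c w = true)).card * g y := by
    rw [sum_congr rfl (g := fun _ => g y), sum_const, nsmul_eq_mul]
    intro w hw
    rw [mem_filter] at hw
    rw [hw.2.1, hw.2.2]; simp [sg]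
  have e2 : ∑ w ∈ D.filter (fun w => x w = y ∧ ¬ c w = true), sg (c w) * g (x w) =
      - ((D.filter (fun w => x w = y ∧ c w = false)).card * g y) := by
    have : D.filter (fun w => x w = y ∧ ¬ c w = true) = D.filter (fun w => x w = y ∧ c w = false) :=
      filter_congr fun w _ => by simp
    rw [this, sum_congr rfl (g := fun _ => - g y), sum_const, nsmul_eq_mul]
    · ring
    intro w hw
    rw [mem_filter] at hw
    rw [hw.2.1, hw.2.2]; simp [sg]
  rw [e1, e2, hD, card_removed, card_removed]
  have f1 : (A.filter fun w => x w = y ∧ c w ≠ true) = A.filter fun w => x w = y ∧ c w = false :=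
    filter_congr fun w _ => by simp
  have f2 : (A.filter fun w => x w = y ∧ c w ≠ false) = A.filter fun w => x w = y ∧ c w = true :=
    filter_congr fun w _ => by simp
  rw [f1, f2, min_comm]
  ring

lemma resolve_shift (a : Site d) {pr' : Site d → ℝ} (hp : ∀ w, pr' (w + a) = pr w)
    (hc : ∀ w, c' (w + a) = c w) (hx : ∀ w, x' (w + a) = x w + a) :
    resolve pr' c' x' (A.map (addRightEmbedding a)) =
      (resolve pr c x A).map (addRightEmbedding a) := by
  unfold resolve
  rw [filter_map]
  congr 1
  refine filter_congr fun w _ => ?_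
  simp only [Function.comp, addRightEmbedding_apply, filter_map, card_map, hc, hx, add_left_inj,
    hp]

/-- Equal numbers of particles of each colour at each site. -/
def Same (c : Site d → Bool) (x : Site d → Site d) (A : Finset (Site d))
    (c' : Site d → Bool) (x' : Site d → Site d) (A' : Finset (Site d)) : Prop :=
  ∀ y κ, (A.filter fun w => x w = y ∧ c w = κ).card = (A'.filter fun w => x' w = y ∧ c' w = κ).card

lemma card_resolve (y : Site d) (κ : Bool) :
    ((resolve P.pr c x A).filter fun w => x w = y ∧ c w = κ).card =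
      (A.filter fun w => x w = y ∧ c w = κ).card - (A.filter fun w => x w = y ∧ c w = !κ).card := by
  have h1 := card_removed (P := P) (c := c) (x := x) (A := A) y κ
  have e : (A.filter fun w => x w = y ∧ c w ≠ κ) = A.filter fun w => x w = y ∧ c w = !κ :=
    filter_congr fun w _ => by cases c w <;> cases κ <;> simp
  rw [e] at h1
  have h2 : ((A \ resolve P.pr c x A).filter fun w => x w = y ∧ c w = κ).card +
      ((resolve P.pr c x A).filter fun w => x w = y ∧ c w = κ).card =
      (A.filter fun w => x w = y ∧ c w = κ).card := by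
    rw [← card_union_of_disjoint (disjoint_filter_filter sdiff_disjoint), ← filter_union,
      sdiff_union_of_subset resolve_subset]
  omega

lemma Same.resolve {Q : Prio d} (h : Same c x A c' x' B) :
    Same c x (resolve P.pr c x A) c' x' (resolve Q.pr c' x' B) := fun y κ => by
  rw [card_resolve, card_resolve, h, h]

lemma Same.exists_equiv (h : Same c x A c' x' B) : ∃ τ : Site d ≃ Site d,
    A.map τ.toEmbedding = B ∧ ∀ w ∈ A, x' (τ w) = x w ∧ c' (τ w) = c w := by
  induction A using Finset.induction_on generalizing B with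
  | empty =>
    refine ⟨Equiv.refl _, ?_, by simp⟩
    rw [map_empty, eq_comm, eq_empty_iff_forall_notMem]
    intro b hb
    have := h (x' b) (c' b)
    rw [filter_empty, card_empty, eq_comm, card_eq_zero, filter_eq_empty_iff] at this
    exact this hb ⟨rfl, rfl⟩
  | insert a s ha ih =>
    have h1 := h (x a) (c a)
    have : 0 < (B.filter fun w => x' w = x a ∧ c' w = c a).card := by
      rw [← h1]; exact card_pos.2 ⟨a, by simp⟩
    obtain ⟨b, hb⟩ := card_pos.1 this
    rw [mem_filter] at hb
    have h2 : Same c x s c' x' (B.erase b) := by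
      intro y κ
      have h3 := h y κ
      rw [filter_insert, ← insert_erase hb.1, filter_insert, hb.2.1, hb.2.2] at h3
      split_ifs at h3 with h4
      · rw [card_insert_of_notMem (fun hh => ha (mem_filter.1 hh).1),
          card_insert_of_notMem (fun hh => notMem_erase _ _ (mem_filter.1 hh).1)] at h3
        omega
      · exact h3
    obtain ⟨τ, t1, t2⟩ := ih h2
    have t3 : ∀ w ∈ s, Equiv.swap (τ a) b (τ w) = τ w := fun w hw => by
      refine Equiv.swap_apply_of_ne_of_ne (fun hh => ha (τ.injective hh ▸ hw)) fun hh => ?_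
      have : τ w ∈ B.erase b := by rw [← t1]; exact mem_map_of_mem _ hw
      exact (mem_erase.1 this).1 hh
    refine ⟨τ.trans (Equiv.swap (τ a) b), ?_, fun w hw => ?_⟩
    · rw [map_insert, ← insert_erase hb.1, ← t1]
      simp only [Equiv.coe_toEmbedding, Equiv.trans_apply, Equiv.swap_apply_left]
      congr 1
      ext v
      simp only [mem_map, Equiv.coe_toEmbedding, Equiv.trans_apply]
      exact exists_congr fun w => and_congr_right fun hw => by rw [t3 w hw]
    · rcases mem_insert.1 hw with rfl | hw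
      · simpa using hb.2
      · rw [Equiv.trans_apply, t3 w hw]; exact t2 w hw

lemma same_of_equiv (τ : Site d ≃ Site d) (h : ∀ w ∈ A, x' (τ w) = x w ∧ c' (τ w) = c w) :
    Same c x A c' x' (A.map τ.toEmbedding) := fun y κ => by
  rw [filter_map, card_map]
  congr 1
  refine filter_congr fun w hw => ?_
  simp only [Function.comp, Equiv.coe_toEmbedding, (h w hw).1, (h w hw).2]

/-- One discrepancy. -/
lemma tracer {κ : Bool} (h : Dom κ c A B)
    (hs : SS c x A (fun _ => 1) - SS c x B (fun _ => 1) = sg κ) :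
    ∃ u, (u ∉ B ∧ A = insert u B ∧ c u = κ) ∨ (u ∉ A ∧ B = insert u A ∧ c u ≠ κ) := by
  have e1 : SS c x A (fun _ => 1) - SS c x B (fun _ => 1) =
      sg κ * (((A \ B).card : ℝ) + (B \ A).card) := by
    unfold SS
    have a1 : ∑ w ∈ A \ B, sg (c w) * (1 : ℝ) = (A \ B).card * sg κ := by
      rw [sum_congr rfl (g := fun _ => sg κ), sum_const, nsmul_eq_mul]
      intro w hw
      rw [mem_sdiff] at hw
      have : c w = κ := by
        by_contra hh
        exact hw.2 (h.2 w hw.1 hh)
      rw [this, mul_one]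
    have a2 : ∑ w ∈ B \ A, sg (c w) * (1 : ℝ) = (B \ A).card * (- sg κ) := by
      rw [sum_congr rfl (g := fun _ => - sg κ), sum_const, nsmul_eq_mul]
      intro w hw
      rw [mem_sdiff] at hw
      have : c w ≠ κ := fun hh => hw.2 (h.1 w hw.1 hh)
      rw [sg_of_ne this, mul_one]
    rw [← sum_sdiff_sub_sum_sdiff, a1, a2]
    ring
  rw [e1] at hs
  have hk : sg κ ≠ 0 := by cases κ <;> simp [sg]
  have e2 : ((A \ B).card : ℝ) + (B \ A).card = 1 := by
    have := mul_left_cancel₀ hk (hs.trans (mul_one _).symm)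
    exact this
  have e3 : (A \ B).card + (B \ A).card = 1 := by exact_mod_cast e2
  rcases Nat.add_eq_one_iff.1 e3 with ⟨h0, h1⟩ | ⟨h1, h0⟩
  · obtain ⟨u, hu⟩ := card_eq_one.1 h1
    have hAB : A ⊆ B := sdiff_eq_empty_iff_subset.1 (card_eq_zero.1 h0)
    have huu : u ∈ B \ A := by rw [hu]; exact mem_singleton_self u
    rw [mem_sdiff] at huu
    refine ⟨u, Or.inr ⟨huu.2, ?_, fun hh => huu.2 (h.1 u huu.1 hh)⟩⟩
    rw [← sdiff_union_of_subset hAB, hu]; rfl
  · obtain ⟨u, hu⟩ := card_eq_one.1 h1
    have hBA : B ⊆ A := sdiff_eq_empty_iff_subset.1 (card_eq_zero.1 h0)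
    have huu : u ∈ A \ B := by rw [hu]; exact mem_singleton_self u
    rw [mem_sdiff] at huu
    refine ⟨u, Or.inl ⟨huu.2, ?_, ?_⟩⟩
    · rw [← sdiff_union_of_subset hBA, hu]; rfl
    · by_contra hh
      exact huu.2 (h.2 u huu.1 hh)

/-- The form in which the discrepancy is used. -/
lemma tracer' {κ : Bool} (h : Dom κ c A B)
    (hs : SS c x A (fun _ => 1) - SS c x B (fun _ => 1) = sg κ) :
    ∃ u, (∀ g, sg κ * (SS c x A g - SS c x B g) = g (x u)) ∧
      (∀ κ' g, |UU κ' c x A g - UU κ' c x B g| ≤ |g (x u)|) ∧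
      (∀ z ∈ A, z ∉ B → A = insert z B) := by
  obtain ⟨u, ⟨hu, hA, hc⟩ | ⟨hu, hB, hc⟩⟩ := tracer h hs
  · refine ⟨u, fun g => ?_, fun κ' g => ?_, fun z hz hzB => ?_⟩
    · unfold SS
      rw [hA, sum_insert hu, hc, add_sub_cancel_right, ← mul_assoc, sg_mul_self, one_mul]
    · unfold UU
      rw [hA, sum_insert hu, add_sub_cancel_right]
      split_ifs <;> simp
    · rw [hA] at hz
      rcases mem_insert.1 hz with h1 | h1
      · rw [h1]; exact hA
      · exact absurd h1 hzB
  · refine ⟨u, fun g => ?_, fun κ' g => ?_, fun z hz hzB => ?_⟩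
    · unfold SS
      rw [hB, sum_insert hu, sg_of_ne hc]
      have := sg_mul_self κ
      linear_combination g (x u) * this
    · unfold UU
      rw [hB, sum_insert hu, abs_sub_comm, add_sub_cancel_right]
      split_ifs <;> simp
    · exact absurd (by rw [hB]; exact mem_insert_of_mem hz) hzB

lemma SS_eq_UU (g : Site d → ℝ) : SS c x A g = UU true c x A g - UU false c x A g := by
  unfold SS UU
  rw [← sum_sub_distrib]
  refine sum_congr rfl fun w _ => ?_
  cases c w <;> simp [sg]

lemma UU_nonneg {κ : Bool} {g : Site d → ℝ} (hg : ∀ y, 0 ≤ g y) : 0 ≤ UU κ c x A g :=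
  sum_nonneg fun w _ => by split_ifs; exacts [hg _, le_rfl]

lemma UU_mono {κ : Bool} {g : Site d → ℝ} (hg : ∀ y, 0 ≤ g y) (hB : B ⊆ A) :
    UU κ c x B g ≤ UU κ c x A g :=
  sum_le_sum_of_subset_of_nonneg hB fun w _ _ => by split_ifs; exacts [hg _, le_rfl]

lemma UU_le_sum {κ : Bool} {g : Site d → ℝ} (hg : ∀ y, 0 ≤ g y) :
    UU κ c x A g ≤ ∑ w ∈ A, g (x w) :=
  sum_le_sum fun w _ => by split_ifs; exacts [le_rfl, hg _]

lemma abs_UU_le {κ : Bool} {g : Site d → ℝ} {C : ℝ} (hg : ∀ y, |g y| ≤ C) :
    |UU κ c x A g| ≤ A.card * C := by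
  unfold UU
  refine (abs_sum_le_sum_abs _ _).trans ?_
  rw [← nsmul_eq_mul, ← sum_const]
  refine sum_le_sum fun w _ => ?_
  split_ifs
  · exact hg _
  · simpa using (abs_nonneg _).trans (hg 0)

lemma abs_SS_le {g : Site d → ℝ} {C : ℝ} (hg : ∀ y, |g y| ≤ C) :
    |SS c x A g| ≤ A.card * C := by
  unfold SS
  refine (abs_sum_le_sum_abs _ _).trans ?_
  rw [← nsmul_eq_mul, ← sum_const]
  refine sum_le_sum fun w _ => ?_
  rw [abs_mul, abs_sg, one_mul]
  exact hg _

end Pool.Agent.MP_0e9fac_pr
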