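import Mathlib

/-! General tools: bounded measurable functions, resampling on product spaces, Efron-Stein. -/

set_option autoImplicit false
open MeasureTheory ProbabilityTheory Filter Set
open scoped Classical ENNReal Topology symmDiff

namespace Pool.Agent.MP_0e9fac_pr

/-- Bounded measurable real functions. -/
structure BM {Ω : Type*} [MeasurableSpace Ω] (f : Ω → ℝ) : Prop where
  meas : Measurable f
  bdd : ∃ C, ∀ ω, |f ω| ≤ C

/-- The indicator of a proposition. -/
noncomputable def ind (p : Prop) : ℝ := if p then 1 else 0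

lemma ind_nonneg (p : Prop) : 0 ≤ ind p := by unfold ind; split_ifs <;> norm_num
lemma ind_le_one (p : Prop) : ind p ≤ 1 := by unfold ind; split_ifs <;> norm_num
lemma ind_pos {p : Prop} (h : p) : ind p = 1 := if_pos h
lemma ind_neg {p : Prop} (h : ¬ p) : ind p = 0 := if_neg h
lemma abs_ind_le (p : Prop) : |ind p| ≤ 1 := by rw [abs_of_nonneg (ind_nonneg p)]; exact ind_le_one p
lemma ind_congr {p q : Prop} (h : p ↔ q) : ind p = ind q := by rw [propext h]
lemma ind_mono {p q : Prop} (h : p → q) : ind p ≤ ind q := by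
  by_cases hp : p
  · rw [ind_pos hp, ind_pos (h hp)]
  · rw [ind_neg hp]; exact ind_nonneg q
lemma ind_and (p q : Prop) : ind (p ∧ q) = ind p * ind q := by
  by_cases hp : p <;> by_cases hq : q <;> simp [ind, hp, hq]

section BM
variable {Ω Ω' : Type*} [MeasurableSpace Ω] [MeasurableSpace Ω'] {f g : Ω → ℝ}

lemma BM.const (c : ℝ) : BM (fun _ : Ω => c) := ⟨measurable_const, |c|, fun _ => le_rfl⟩

lemma BM.add (hf : BM f) (hg : BM g) : BM fun ω => f ω + g ω := by
  obtain ⟨C, hC⟩ := hf.bdd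
  obtain ⟨D, hD⟩ := hg.bdd
  exact ⟨hf.meas.add hg.meas, C + D, fun ω => (abs_add_le _ _).trans (add_le_add (hC ω) (hD ω))⟩

lemma BM.mul (hf : BM f) (hg : BM g) : BM fun ω => f ω * g ω := by
  obtain ⟨C, hC⟩ := hf.bdd
  obtain ⟨D, hD⟩ := hg.bdd
  refine ⟨hf.meas.mul hg.meas, C * D, fun ω => ?_⟩
  rw [abs_mul]
  exact mul_le_mul (hC ω) (hD ω) (abs_nonneg _) ((abs_nonneg _).trans (hC ω))

lemma BM.neg (hf : BM f) : BM fun ω => - f ω := by
  obtain ⟨C, hC⟩ := hf.bdd
  exact ⟨hf.meas.neg, C, fun ω => by rw [abs_neg]; exact hC ω⟩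

lemma BM.sub (hf : BM f) (hg : BM g) : BM fun ω => f ω - g ω := by
  simpa only [sub_eq_add_neg] using hf.add hg.neg

lemma BM.const_mul (hf : BM f) (c : ℝ) : BM fun ω => c * f ω := (BM.const c).mul hf

lemma BM.abs (hf : BM f) : BM fun ω => |f ω| := by
  obtain ⟨C, hC⟩ := hf.bdd
  exact ⟨continuous_abs.measurable.comp hf.meas, C, fun ω => by rw [abs_abs]; exact hC ω⟩

lemma BM.sq (hf : BM f) : BM fun ω => f ω ^ 2 := by
  simpa only [pow_two] using hf.mul hf

lemma BM.exp (hf : BM f) : BM fun ω => Real.exp (f ω) := by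
  obtain ⟨C, hC⟩ := hf.bdd
  refine ⟨Real.measurable_exp.comp hf.meas, Real.exp C, fun ω => ?_⟩
  rw [abs_of_pos (Real.exp_pos _)]
  exact Real.exp_le_exp.2 ((le_abs_self _).trans (hC ω))

lemma BM.cos (hf : Measurable f) : BM fun ω => Real.cos (f ω) :=
  ⟨Real.measurable_cos.comp hf, 1, fun _ => Real.abs_cos_le_one _⟩

lemma BM.sin (hf : Measurable f) : BM fun ω => Real.sin (f ω) :=
  ⟨Real.measurable_sin.comp hf, 1, fun _ => Real.abs_sin_le_one _⟩

lemma BM.sum {ι : Type*} (s : Finset ι) {F : ι → Ω → ℝ} (h : ∀ i ∈ s, BM (F i)) :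
    BM fun ω => ∑ i ∈ s, F i ω := by
  induction s using Finset.induction_on with
  | empty => simpa using BM.const 0
  | insert a s ha ih =>
    simp_rw [Finset.sum_insert ha]
    exact (h a (Finset.mem_insert_self _ _)).add (ih fun i hi => h i (Finset.mem_insert_of_mem hi))

lemma BM.prod {ι : Type*} (s : Finset ι) {F : ι → Ω → ℝ} (h : ∀ i ∈ s, BM (F i)) :
    BM fun ω => ∏ i ∈ s, F i ω := by
  induction s using Finset.induction_on with
  | empty => simpa using BM.const 1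
  | insert a s ha ih =>
    simp_rw [Finset.prod_insert ha]
    exact (h a (Finset.mem_insert_self _ _)).mul (ih fun i hi => h i (Finset.mem_insert_of_mem hi))

lemma BM.comp (hf : BM f) {φ : Ω' → Ω} (hφ : Measurable φ) : BM fun ω => f (φ ω) := by
  obtain ⟨C, hC⟩ := hf.bdd
  exact ⟨hf.meas.comp hφ, C, fun ω => hC _⟩

lemma BM.ind {p : Ω → Prop} (hp : MeasurableSet {ω | p ω}) : BM fun ω => ind (p ω) :=
  ⟨Measurable.ite hp measurable_const measurable_const, 1, fun _ => abs_ind_le _⟩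

lemma BM.ite {p : Ω → Prop} [DecidablePred p] (hp : MeasurableSet {ω | p ω}) (hf : BM f)
    (hg : BM g) : BM fun ω => if p ω then f ω else g ω := by
  obtain ⟨C, hC⟩ := hf.bdd
  obtain ⟨D, hD⟩ := hg.bdd
  refine ⟨Measurable.ite hp hf.meas hg.meas, max C D, fun ω => ?_⟩
  split_ifs
  exacts [(hC ω).trans (le_max_left _ _), (hD ω).trans (le_max_right _ _)]

lemma BM.of_countable [Countable Ω] [MeasurableSingletonClass Ω] {C : ℝ} (h : ∀ ω, |f ω| ≤ C) :
    BM f := ⟨measurable_of_countable f, C, h⟩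

lemma BM.integrable (hf : BM f) {μ : Measure Ω} [IsFiniteMeasure μ] : Integrable f μ := by
  obtain ⟨C, hC⟩ := hf.bdd
  exact Integrable.of_bound hf.meas.aestronglyMeasurable C (Eventually.of_forall hC)

lemma abs_integral_le {μ : Measure Ω} [IsProbabilityMeasure μ] {C : ℝ} (h : ∀ ω, |f ω| ≤ C) :
    |∫ ω, f ω ∂μ| ≤ C := by
  simpa using norm_integral_le_of_norm_le_const (μ := μ) (f := f) (C := C) (Eventually.of_forall h)

lemma BM.integral {F : Ω × Ω' → ℝ} (hF : BM F) (μ : Measure Ω') [IsProbabilityMeasure μ] :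
    BM fun a => ∫ b, F (a, b) ∂μ := by
  obtain ⟨C, hC⟩ := hF.bdd
  exact ⟨(hF.meas.stronglyMeasurable.integral_prod_right').measurable, C,
    fun a => abs_integral_le fun b => hC _⟩

lemma integral_ind {μ : Measure Ω} {p : Ω → Prop} (hp : MeasurableSet {ω | p ω}) :
    ∫ ω, ind (p ω) ∂μ = μ.real {ω | p ω} := by
  rw [← integral_indicator_one hp]
  congr 1

lemma integral_mp {μ : Measure Ω} {μ' : Measure Ω'} {φ : Ω' → Ω} (h : MeasurePreserving φ μ' μ)
    (hf : Measurable f) : ∫ ω, f (φ ω) ∂μ' = ∫ ω, f ω ∂μ := by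
  rw [← h.map_eq, integral_map_of_stronglyMeasurable h.measurable hf.stronglyMeasurable]

lemma integral_eq_iter {α β : Type*} [MeasurableSpace α] [MeasurableSpace β] {μ : Measure α}
    {ν : Measure β} [IsProbabilityMeasure μ] [IsProbabilityMeasure ν] {ρ : Measure Ω}
    {φ : α × β → Ω} (h : MeasurePreserving φ (μ.prod ν) ρ) (hf : BM f) :
    ∫ ω, f ω ∂ρ = ∫ a, ∫ b, f (φ (a, b)) ∂ν ∂μ := by
  rw [← integral_mp h hf.meas, integral_prod _ (hf.comp h.measurable).integrable]

lemma integral_eq_iter' {α β : Type*} [MeasurableSpace α] [MeasurableSpace β] {μ : Measure α}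
    {ν : Measure β} [IsProbabilityMeasure μ] [IsProbabilityMeasure ν] {ρ : Measure Ω}
    {φ : α × β → Ω} (h : MeasurePreserving φ (μ.prod ν) ρ) (hf : BM f) :
    ∫ ω, f ω ∂ρ = ∫ b, ∫ a, f (φ (a, b)) ∂μ ∂ν := by
  rw [← integral_mp h hf.meas, integral_prod_symm _ (hf.comp h.measurable).integrable]

lemma BM.integral_mono {μ : Measure Ω} [IsFiniteMeasure μ] (hf : BM f) (hg : BM g)
    (h : ∀ᵐ ω ∂μ, f ω ≤ g ω) : ∫ ω, f ω ∂μ ≤ ∫ ω, g ω ∂μ :=
  integral_mono_ae hf.integrable hg.integrable h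

lemma integral_sq_sub {μ : Measure Ω} [IsProbabilityMeasure μ] (hf : BM f) (a : ℝ) :
    ∫ ω, f ω ^ 2 ∂μ - (∫ ω, f ω ∂μ) ^ 2 ≤ ∫ ω, (f ω - a) ^ 2 ∂μ := by
  have e : ∫ ω, (f ω - a) ^ 2 ∂μ = ∫ ω, f ω ^ 2 ∂μ - 2 * a * ∫ ω, f ω ∂μ + a ^ 2 := by
    have : ∀ ω, (f ω - a) ^ 2 = f ω ^ 2 - 2 * a * f ω + a ^ 2 := fun ω => by ring
    simp_rw [this]
    rw [integral_add (hf.sq.sub (hf.const_mul _)).integrable (integrable_const _),
      integral_sub hf.sq.integrable (hf.const_mul _).integrable, integral_const_mul]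
    simp
  rw [e]
  nlinarith [sq_nonneg (∫ ω, f ω ∂μ - a)]

lemma sq_integral_le {μ : Measure Ω} [IsProbabilityMeasure μ] (hf : BM f) :
    (∫ ω, f ω ∂μ) ^ 2 ≤ ∫ ω, f ω ^ 2 ∂μ := by
  have h1 : 0 ≤ ∫ ω, (f ω - ∫ ω, f ω ∂μ) ^ 2 ∂μ := integral_nonneg fun ω => sq_nonneg _
  have e : ∫ ω, (f ω - ∫ ω, f ω ∂μ) ^ 2 ∂μ = ∫ ω, f ω ^ 2 ∂μ - (∫ ω, f ω ∂μ) ^ 2 := by
    set a := ∫ ω, f ω ∂μ with ha
    have : ∀ ω, (f ω - a) ^ 2 = f ω ^ 2 - 2 * a * f ω + a ^ 2 := fun ω => by ring
    simp_rw [this]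
    rw [integral_add (hf.sq.sub (hf.const_mul _)).integrable (integrable_const _),
      integral_sub hf.sq.integrable (hf.const_mul _).integrable, integral_const_mul, ← ha]
    simp; ring
  linarith

/-- A Paley-Zygmund type inequality. -/
lemma pz {μ : Measure Ω} [IsProbabilityMeasure μ] (hf : BM f) {θ L : ℝ} (hθ : 0 ≤ θ) (hL : 0 < L) :
    ∫ ω, f ω ∂μ ≤ θ + L * μ.real {ω | θ < f ω} + (∫ ω, f ω ^ 2 ∂μ) / L := by
  have hm : MeasurableSet {ω | θ < f ω} := measurableSet_lt measurable_const hf.meas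
  have h : ∀ ω, f ω ≤ θ + L * ind (θ < f ω) + L⁻¹ * f ω ^ 2 := by
    intro ω
    have h2 : 0 ≤ L⁻¹ * f ω ^ 2 := by positivity
    by_cases h1 : θ < f ω
    · rw [ind_pos h1]
      have : f ω ≤ L + L⁻¹ * f ω ^ 2 := by
        have e : L + L⁻¹ * f ω ^ 2 - f ω = L⁻¹ * ((f ω - L / 2) ^ 2 + 3 / 4 * L ^ 2) := by
          field_simp; ring
        have : 0 ≤ L⁻¹ * ((f ω - L / 2) ^ 2 + 3 / 4 * L ^ 2) := by positivity
        linarith
      linarith
    · rw [ind_neg h1]; linarith [not_lt.1 h1]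
  refine (hf.integral_mono (((BM.const θ).add ((BM.ind hm).const_mul L)).add
    (hf.sq.const_mul _)) (Eventually.of_forall h)).trans (le_of_eq ?_)
  rw [integral_add ((BM.const θ).add ((BM.ind hm).const_mul L)).integrable
    (hf.sq.const_mul _).integrable, integral_add (integrable_const _)
    ((BM.ind hm).const_mul L).integrable, integral_const_mul, integral_const_mul, integral_ind hm]
  simp [div_eq_inv_mul]

/-- Markov's inequality. -/
lemma markov {μ : Measure Ω} [IsProbabilityMeasure μ] (hf : BM f) (h0 : ∀ ω, 0 ≤ f ω) {θ : ℝ}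
    (hθ : 0 < θ) : μ.real {ω | θ ≤ f ω} ≤ (∫ ω, f ω ∂μ) / θ := by
  have hm : MeasurableSet {ω | θ ≤ f ω} := measurableSet_le measurable_const hf.meas
  rw [le_div_iff₀ hθ, ← integral_ind hm, ← integral_mul_const]
  refine ((BM.ind hm).mul (BM.const θ)).integral_mono hf (Eventually.of_forall fun ω => ?_)
  by_cases h : θ ≤ f ω
  · rw [ind_pos h, one_mul]; exact h
  · rw [ind_neg h, zero_mul]; exact h0 ω

lemma measure_eventually_le {μ : Measure Ω} [IsFiniteMeasure μ] {V : ℕ → Set Ω} {c : ℝ}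
    (h : ∀ᶠ n in atTop, μ.real (V n) ≤ c) : μ.real {ω | ∀ᶠ n in atTop, ω ∈ V n} ≤ c := by
  have hc : 0 ≤ c := by
    obtain ⟨n, hn⟩ := h.exists
    exact measureReal_nonneg.trans hn
  have e : {ω | ∀ᶠ n in atTop, ω ∈ V n} = ⋃ N, ⋂ n, ⋂ _ : n ≥ N, V n := by
    ext ω; simp [eventually_atTop]
  have hmono : Monotone fun N => ⋂ n, ⋂ _ : n ≥ N, V n := fun a b hab ω hω => by
    simp only [mem_iInter] at hω ⊢
    exact fun n hn => hω n (le_trans hab hn)
  refine ENNReal.toReal_le_of_le_ofReal hc ?_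
  rw [e, hmono.measure_iUnion]
  refine iSup_le fun N => ?_
  obtain ⟨n, h1, h2⟩ := (h.and (eventually_ge_atTop N)).exists
  refine le_trans (measure_mono (t := V n) fun ω hω => ?_) ?_
  · simp only [mem_iInter] at hω
    exact hω n h2
  · rw [← ofReal_measureReal]
    exact ENNReal.ofReal_le_ofReal h1

end BM

section Pi
variable {ι E : Type*} [MeasurableSpace E] (ν : Measure E) [IsProbabilityMeasure ν]

/-- The product measure. -/
noncomputable abbrev PP (ι : Type*) {E : Type*} [MeasurableSpace E] (ν : Measure E) :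
    Measure (ι → E) := Measure.infinitePi fun _ : ι => ν

lemma mp_zip : MeasurePreserving (fun (q : (ι → E) × (ι → E)) (z : ι) => (q.1 z, q.2 z))
    ((PP ι ν).prod (PP ι ν)) (PP ι (ν.prod ν)) := by
  have hm : Measurable fun (q : (ι → E) × (ι → E)) (z : ι) => (q.1 z, q.2 z) :=
    measurable_pi_iff.2 fun z => ((measurable_pi_apply z).comp measurable_fst).prodMk
      ((measurable_pi_apply z).comp measurable_snd)
  refine ⟨hm, Measure.eq_infinitePi _ fun s t ht => ?_⟩
  rw [Measure.map_apply hm (MeasurableSet.pi s.countable_toSet fun i _ => ht i)]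
  have r : MeasurePreserving (s.restrict (π := fun _ => E)) (PP ι ν) (Measure.pi fun _ : s => ν) :=
    ⟨Finset.measurable_restrict s, Measure.infinitePi_map_restrict _⟩
  have a := (measurePreserving_arrowProdEquivProdArrow E E s (fun _ => ν) (fun _ => ν)).symm
  have c := a.comp (r.prod r)
  have := c.measure_preimage (s := Set.univ.pi fun i : s => t i)
    (MeasurableSet.univ_pi fun i : s => ht i).nullMeasurableSet
  rw [Measure.pi_pi, Finset.prod_coe_sort s fun i => (ν.prod ν) (t i)] at this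
  rw [← this]
  congr 1
  ext q
  simp only [mem_preimage, Set.mem_pi, Finset.mem_coe, mem_univ, true_imp_iff, Subtype.forall]
  rfl

lemma mp_pair {φ : ι → E × E → E} (h : ∀ z, MeasurePreserving (φ z) (ν.prod ν) ν) :
    MeasurePreserving (fun (q : (ι → E) × (ι → E)) (z : ι) => φ z (q.1 z, q.2 z))
      ((PP ι ν).prod (PP ι ν)) (PP ι ν) := by
  have h1 : MeasurePreserving (fun (x : ι → E × E) (z : ι) => φ z (x z)) (PP ι (ν.prod ν))
      (PP ι ν) := by
    refine ⟨measurable_pi_iff.2 fun z => (h z).measurable.comp (measurable_pi_apply z), ?_⟩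
    rw [Measure.infinitePi_map_pi _ fun z => (h z).measurable]
    simp_rw [fun z => (h z).map_eq]
  exact h1.comp (mp_zip ν)

/-- Resampling the coordinates in `B`. -/
noncomputable def rs (B : Set ι) (q : (ι → E) × (ι → E)) : ι → E :=
  fun z => if z ∈ B then q.2 z else q.1 z

lemma mp_rs (B : Set ι) : MeasurePreserving (rs (E := E) B) ((PP ι ν).prod (PP ι ν)) (PP ι ν) := by
  have := mp_pair ν (φ := fun z q => if z ∈ B then q.2 else q.1) fun z => by
    by_cases hz : z ∈ B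
    · simp only [if_pos hz]; exact measurePreserving_snd
    · simp only [if_neg hz]; exact measurePreserving_fst
  exact this

lemma integral_mul_of_dependsOn {f g : (ι → E) → ℝ} (hf : BM f) (hg : BM g) {B : Set ι}
    (h1 : DependsOn f B) (h2 : DependsOn g Bᶜ) :
    ∫ ω, f ω * g ω ∂PP ι ν = (∫ ω, f ω ∂PP ι ν) * ∫ ω, g ω ∂PP ι ν := by
  rw [← integral_mp (mp_rs ν B) (hf.mul hg).meas, mul_comm, ← integral_prod_mul]
  congr 1
  ext q
  rw [mul_comm, h1 (x := rs B q) (y := q.2) fun i hi => if_pos hi,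
    h2 (x := rs B q) (y := q.1) fun i hi => if_neg hi]

lemma integral_eval {g : E → ℝ} (hg : Measurable g) (z : ι) :
    ∫ ω, g (ω z) ∂PP ι ν = ∫ e, g e ∂ν :=
  integral_mp (measurePreserving_eval_infinitePi (fun _ : ι => ν) z) hg

lemma integral_prod_eval (S : Finset ι) {g : ι → E → ℝ} (hg : ∀ z, BM (g z)) :
    ∫ ω, ∏ z ∈ S, g z (ω z) ∂PP ι ν = ∏ z ∈ S, ∫ e, g z e ∂ν := by
  induction S using Finset.induction_on with
  | empty => simp
  | insert a s ha ih =>
    simp_rw [Finset.prod_insert ha]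
    rw [integral_mul_of_dependsOn ν (B := {a}) ((hg a).comp (measurable_pi_apply a))
      (BM.prod s fun z _ => (hg z).comp (measurable_pi_apply z)), ih, integral_eval ν (hg a).meas]
    · intro x y h
      simp only [h a rfl]
    · intro x y h
      refine Finset.prod_congr rfl fun z hz => ?_
      rw [h z fun hh => ha (by rw [← mem_singleton_iff.1 hh]; exact hz)]

lemma efron_stein (S : Finset ι) : ∀ (f : (ι → E) → ℝ) (f' : ι → (ι → E) → ℝ), BM f →
    (∀ z, BM (f' z)) → DependsOn f S → (∀ z, DependsOn (f' z) {z}ᶜ) →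
    ∫ ω, f ω ^ 2 ∂PP ι ν ≤ (∫ ω, f ω ∂PP ι ν) ^ 2 + ∑ z ∈ S, ∫ ω, (f ω - f' z ω) ^ 2 ∂PP ι ν := by
  induction S using Finset.induction_on with
  | empty =>
    intro f f' _ _ h _
    obtain ⟨x⟩ := nonempty_of_isProbabilityMeasure (PP ι ν)
    have : f = fun _ => f x := funext fun y => h (by simp)
    rw [this]; simp
  | insert z S hz ih =>
    intro f f' hf hf' h h'
    have mp := mp_rs ν ({z} : Set ι)
    have hT : ∀ g : (ι → E) → ℝ, BM g → BM fun ω => ∫ ω', g (rs {z} (ω, ω')) ∂PP ι ν :=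
      fun g hg => (hg.comp mp.measurable).integral _
    have hs : ∀ g : (ι → E) → ℝ, BM g → ∀ ω, BM fun ω' => g (rs {z} (ω, ω')) :=
      fun g hg ω => hg.comp (mp.measurable.comp measurable_prodMk_left)
    have h1 := ih (fun ω => ∫ ω', f (rs {z} (ω, ω')) ∂PP ι ν)
      (fun y ω => ∫ ω', f' y (rs {z} (ω, ω')) ∂PP ι ν) (hT f hf) (fun y => hT _ (hf' y))
      (fun x y hxy => by
        dsimp only
        congr 1
        ext ω'
        refine h fun i hi => ?_
        unfold rs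
        split_ifs with h0
        · rfl
        · exact hxy i ((Finset.mem_insert.1 hi).resolve_left h0))
      (fun u x y hxy => by
        dsimp only
        congr 1
        ext ω'
        refine h' u fun i hi => ?_
        unfold rs
        split_ifs with h0
        · rfl
        · exact hxy i hi)
    rw [← integral_eq_iter mp hf] at h1
    have h2 : ∀ y, ∫ ω, (∫ ω', f (rs {z} (ω, ω')) ∂PP ι ν - ∫ ω', f' y (rs {z} (ω, ω')) ∂PP ι ν) ^ 2
        ∂PP ι ν ≤ ∫ ω, (f ω - f' y ω) ^ 2 ∂PP ι ν := by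
      intro y
      rw [integral_eq_iter mp (hf.sub (hf' y)).sq]
      refine ((hT f hf).sub (hT _ (hf' y))).sq.integral_mono (hT _ (hf.sub (hf' y)).sq)
        (Eventually.of_forall fun ω => ?_)
      rw [← integral_sub (hs f hf ω).integrable (hs _ (hf' y) ω).integrable]
      exact sq_integral_le (hs _ (hf.sub (hf' y)) ω)
    have h3 : ∫ ω, f ω ^ 2 ∂PP ι ν - ∫ ω, (∫ ω', f (rs {z} (ω, ω')) ∂PP ι ν) ^ 2 ∂PP ι ν ≤
        ∫ ω, (f ω - f' z ω) ^ 2 ∂PP ι ν := by
      rw [integral_eq_iter mp (hf.sub (hf' z)).sq, integral_eq_iter mp hf.sq,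
        ← integral_sub (hT _ hf.sq).integrable (hT f hf).sq.integrable]
      refine ((hT _ hf.sq).sub (hT f hf).sq).integral_mono (hT _ (hf.sub (hf' z)).sq)
        (Eventually.of_forall fun ω => ?_)
      have : ∀ ω', f' z (rs {z} (ω, ω')) = f' z ω := fun ω' => h' z fun i hi => if_neg hi
      simp_rw [this]
      exact integral_sq_sub (hs f hf ω) _
    rw [Finset.sum_insert hz]
    have h4 := Finset.sum_le_sum fun y (_ : y ∈ S) => h2 y
    linarith

lemma integral_sum_eval (S : Finset ι) {g : ι → E → ℝ} (hg : ∀ z, BM (g z)) :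
    ∫ ω, ∑ z ∈ S, g z (ω z) ∂PP ι ν = ∑ z ∈ S, ∫ e, g z e ∂ν := by
  rw [integral_finsetSum _ fun z _ => ((hg z).comp (measurable_pi_apply z)).integrable]
  exact Finset.sum_congr rfl fun z _ => integral_eval ν (hg z).meas z

lemma integral_sq_sum_eval (S : Finset ι) {g : ι → E → ℝ} (hg : ∀ z, BM (g z)) :
    ∫ ω, (∑ z ∈ S, g z (ω z)) ^ 2 ∂PP ι ν ≤
      (∑ z ∈ S, ∫ e, g z e ∂ν) ^ 2 + ∑ z ∈ S, ∫ e, g z e ^ 2 ∂ν := by
  have h := efron_stein ν S (fun ω => ∑ z ∈ S, g z (ω z)) (fun y ω => ∑ z ∈ S.erase y, g z (ω z))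
    (BM.sum S fun z _ => (hg z).comp (measurable_pi_apply z))
    (fun y => BM.sum _ fun z _ => (hg z).comp (measurable_pi_apply z))
    (fun x y h => Finset.sum_congr rfl fun z hz => by rw [h z hz])
    (fun u x y h => Finset.sum_congr rfl fun z hz => by rw [h z (Finset.ne_of_mem_erase hz)])
  rw [integral_sum_eval ν S hg] at h
  refine h.trans (le_of_eq ?_)
  congr 1
  refine Finset.sum_congr rfl fun z hz => ?_
  rw [← integral_eval ν (hg z).sq.meas z]
  congr 1
  ext ω
  rw [← Finset.add_sum_erase S _ hz, add_sub_cancel_right]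

lemma exists_cylinder {H : Set (ι → E)} (hH : MeasurableSet H) {ε : ℝ} (hε : 0 < ε) :
    ∃ (B : Finset ι) (A : Set (ι → E)), MeasurableSet A ∧
      DependsOn (fun ω => ind (ω ∈ A)) B ∧ (PP ι ν).real (A ∆ H) ≤ ε := by
  obtain ⟨A, hA, h⟩ := exists_measure_symmDiff_lt_of_generateFrom_isSetRing (μ := PP ι ν)
    isSetRing_measurableCylinders ⟨{univ}, countable_singleton _,
      singleton_subset_iff.2 (univ_mem_measurableCylinders _), by simp⟩
    generateFrom_measurableCylinders.symm hH (ENNReal.ofReal_pos.2 hε)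
  obtain ⟨B, S, hS, rfl⟩ := (mem_measurableCylinders _).1 hA
  refine ⟨B, _, hS.cylinder, fun x y hxy => ind_congr ?_,
    ENNReal.toReal_le_of_le_ofReal hε.le h.le⟩
  have : B.restrict x = B.restrict y := funext fun i => hxy i i.2
  simp [mem_cylinder, this]

end Pi

end Pool.Agent.MP_0e9fac_pr
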